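import Mathlib

set_option autoImplicit false

namespace Pool.Agent.H.MP_6532c6_co

open Finset Classical

section
variable {T : Type} {I : T → Type} (k : ∀ t, I t → ℕ) {κ : Type} (b : κ → ℕ) (M : ℕ)

structure Good {V : Type} [Fintype V] (G : SimpleGraph V) (cell : V → ∀ t, I t)
    (L : V → Finset (κ × Fin M)) (rank : V → ℕ) : Prop where
  h1 : ∀ u v, G.Adj u v → rank u ≠ rank v
  h2 : ∀ v t, (univ.filter fun u => G.Adj u v ∧ rank u < rank v ∧ cell u t = cell v t).card
    < k t (cell v t)
  h3 : ∀ v s, ((L v).filter fun y => y.1 = s).card = b s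

def ext {V W : Type} (G : SimpleGraph V) (B : W → Finset V) : SimpleGraph (V ⊕ W) where
  Adj x y := match x, y with
    | .inl u, .inl v => G.Adj u v
    | .inl u, .inr w => u ∈ B w
    | .inr w, .inl u => u ∈ B w
    | .inr _, .inr _ => False
  symm := ⟨by rintro (u | u) (v | v) h <;> first | exact h.symm | exact h⟩
  loopless := ⟨by rintro (u | u) h; exacts [G.irrefl h, h]⟩

theorem build [Fintype T] [∀ t, Fintype (I t)] [∀ t, Nonempty (I t)] [Fintype κ]
    (hM : ∀ s, 2 * b s ≤ M)
    (H : ∀ t (g : κ → I t), ∃ i, ∑ s with g s = i, b s < k t i) (n : ℕ) :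
    ∃ (V : Type) (_ : Fintype V) (G : SimpleGraph V) (cell : V → ∀ t, I t)
      (L : V → Finset (κ × Fin M)) (rank : V → ℕ), Good k b M G cell L rank ∧
      (∀ v, rank v < n) ∧ ∀ f : V → κ × Fin M, (∀ v, f v ∈ L v) →
        (∀ u v, G.Adj u v → f u ≠ f v) → n ≤ (univ.image fun v => (cell v, f v)).card := by
  induction n with
  | zero =>
    exact ⟨Empty, inferInstance, ⊥, fun v => v.elim, fun v => v.elim, fun v => v.elim,
      ⟨fun v => v.elim, fun v => v.elim, fun v => v.elim⟩, fun v => v.elim, fun _ _ _ => by simp⟩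
  | succ n ih =>
    obtain ⟨V, _, G, cell, L, rank, hG, hr, hf⟩ := ih
    let W := {x : (∀ t, I t) × Finset (κ × Fin M) × Finset V //
      (∀ t, (x.2.2.filter fun u => cell u t = x.1 t).card < k t (x.1 t)) ∧
        ∀ s, (x.2.1.filter fun y => y.1 = s).card = b s}
    refine ⟨V ⊕ W, inferInstance, ext G (fun w => w.1.2.2), Sum.elim cell (fun w => w.1.1),
      Sum.elim L (fun w => w.1.2.1), Sum.elim rank (fun _ => n), ⟨?_, ?_, ?_⟩, ?_, ?_⟩
    · rintro (u | u) (v | v) h
      · exact hG.h1 u v h
      · exact (hr u).ne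
      · exact (hr v).ne'
      · exact h.elim
    · rintro (v | v) t
      · refine lt_of_le_of_lt ?_ (hG.h2 v t)
        refine le_trans (card_le_card (t := image Sum.inl (univ.filter fun u =>
          G.Adj u v ∧ rank u < rank v ∧ cell u t = cell v t)) ?_) card_image_le
        rintro (u | u) hu
        · exact mem_image.2 ⟨u, by simpa [ext] using hu, rfl⟩
        · have := hr v
          simp only [mem_filter, Sum.elim_inr, Sum.elim_inl] at hu
          omega
      · refine lt_of_le_of_lt ?_ (v.2.1 t)
        refine le_trans (card_le_card (t := image Sum.inl (v.1.2.2.filter fun u =>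
          cell u t = v.1.1 t)) ?_) card_image_le
        rintro (u | u) hu
        · simp only [mem_filter, Sum.elim_inr, Sum.elim_inl, ext] at hu
          exact mem_image.2 ⟨u, mem_filter.2 ⟨hu.2.1, hu.2.2.2⟩, rfl⟩
        · simp [ext] at hu
    · rintro (v | v) s
      · exact hG.h3 v s
      · exact v.2.2 s
    · rintro (v | v)
      · exact (hr v).trans (Nat.lt_succ_self n)
      · exact Nat.lt_succ_self n
    · intro f h1 h2
      have h3 := hf (fun v => f (.inl v)) (fun v => h1 (.inl v))
        (fun u v h => h2 (.inl u) (.inl v) h)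
      set U := univ.image fun v => (cell v, f (.inl v)) with hU
      let used : κ → Prop := fun s => ∃ c, b s ≤ (univ.filter fun x => (c, (s, x)) ∈ U).card
      have hrep : ∀ s, ∃ c : ∀ t, I t,
          used s → b s ≤ (univ.filter fun x => (c, (s, x)) ∈ U).card := by
        intro s
        by_cases h : used s
        · obtain ⟨c, hc⟩ := h; exact ⟨c, fun _ => hc⟩
        · exact ⟨fun t => Classical.arbitrary _, fun h' => absurd h' h⟩
      choose rep hrep using hrep
      choose c hc using fun t => H t (fun s => rep s t)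
      have hA : ∀ s, ∃ A : Finset (Fin M), A.card = b s ∧
          (used s → ∀ x ∈ A, (rep s, (s, x)) ∈ U) ∧ (¬ used s → ∀ x ∈ A, (c, (s, x)) ∉ U) := by
        intro s
        by_cases h : used s
        · obtain ⟨A, hA1, hA2⟩ := exists_subset_card_eq (hrep s h)
          exact ⟨A, hA2, fun _ x hx => (mem_filter.1 (hA1 hx)).2, fun h' => absurd h h'⟩
        · have h4 : (univ.filter fun x => (c, (s, x)) ∈ U).card < b s := by
            by_contra h5
            exact h ⟨c, not_lt.1 h5⟩
          have h5 := card_filter_add_card_filter_not (s := (univ : Finset (Fin M)))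
            (fun x => (c, (s, x)) ∈ U)
          rw [card_univ, Fintype.card_fin] at h5
          have h6 := hM s
          obtain ⟨A, hA1, hA2⟩ := exists_subset_card_eq
            (s := univ.filter fun x => ¬ (c, (s, x)) ∈ U) (n := b s) (by omega)
          exact ⟨A, hA2, fun h' => absurd h' h, fun _ x hx => (mem_filter.1 (hA1 hx)).2⟩
      choose A hA1 hA2 hA3 using hA
      let Λ : Finset (κ × Fin M) := univ.filter fun y => y.2 ∈ A y.1
      have hΛ : ∀ s, (Λ.filter fun y => y.1 = s).card = b s := by
        intro s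
        rw [← hA1 s]
        symm
        apply card_bij (fun x _ => (s, x))
        · intro x hx; simp [Λ, hx]
        · intro x _ y _ h; simpa using h
        · rintro ⟨s', x⟩ hy
          simp only [Λ, mem_filter, mem_univ, true_and] at hy
          obtain ⟨hy, rfl⟩ := hy
          exact ⟨x, hy, rfl⟩
      have hu : ∀ y : {y // y ∈ Λ ∧ used y.1}, ∃ u, cell u = rep y.1.1 ∧ f (.inl u) = y.1 := by
        rintro ⟨y, hy1, hy2⟩
        have := hA2 y.1 hy2 y.2 (mem_filter.1 hy1).2
        simp only [hU, mem_image, mem_univ, true_and, Prod.mk.injEq] at this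
        exact this
      choose u hu1 hu2 using hu
      let w : W := ⟨(c, Λ, univ.image u), fun t => by
        refine lt_of_le_of_lt ?_ (hc t)
        have e1 : ∑ s with rep s t = c t, b s = (Λ.filter fun y => rep y.1 t = c t).card := by
          rw [card_eq_sum_card_fiberwise (f := Prod.fst)
            (t := univ.filter fun s => rep s t = c t) (by intro y hy; simp_all)]
          refine sum_congr rfl fun s hs => ?_
          rw [← hΛ s]
          congr 1
          ext y
          simp only [mem_filter]
          refine ⟨fun h => ⟨⟨h.1, ?_⟩, h.2⟩, fun h => ⟨h.1.1, h.2⟩⟩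
          rw [h.2]; exact (mem_filter.1 hs).2
        rw [e1]
        apply card_le_card_of_injOn (fun v => f (.inl v))
        · intro v hv
          simp only [coe_filter, mem_image, mem_univ, true_and, Set.mem_ofPred_eq] at hv ⊢
          obtain ⟨⟨y, rfl⟩, hy⟩ := hv
          rw [hu2, ← hu1]
          exact ⟨y.2.1, hy⟩
        · intro v hv v' hv' h
          simp only [coe_filter, mem_image, mem_univ, true_and, Set.mem_ofPred_eq] at hv hv'
          obtain ⟨⟨y, rfl⟩, -⟩ := hv
          obtain ⟨⟨y', rfl⟩, -⟩ := hv'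
          simp only [hu2] at h
          rw [Subtype.ext h], hΛ⟩
      have h4 : f (.inr w) ∈ Λ := h1 (.inr w)
      have h5 : ¬ used (f (.inr w)).1 := fun h =>
        h2 (.inl (u ⟨_, h4, h⟩)) (.inr w) (mem_image.2 ⟨_, mem_univ _, rfl⟩) (hu2 _)
      have h6 := hA3 _ h5 _ (mem_filter.1 h4).2
      refine le_trans ?_ (card_le_card (s := insert (c, f (.inr w)) U) ?_)
      · rw [card_insert_of_notMem h6]; omega
      · intro z hz
        rcases mem_insert.1 hz with rfl | hz
        · exact mem_image.2 ⟨.inr w, mem_univ _, rfl⟩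
        · obtain ⟨v, -, rfl⟩ := mem_image.1 hz
          exact mem_image.2 ⟨.inl v, mem_univ _, rfl⟩

theorem greedy {V : Type} [Fintype V] {G : SimpleGraph V} {cell : V → ∀ t, I t}
    {L : V → Finset (κ × Fin M)} {rank : V → ℕ} (hG : Good k b M G cell L rank) (t : T)
    (L' : V → Finset ℕ) (cls : ℕ → I t)
    (h : ∀ v i, ((L' v).filter fun x => cls x = i).card = k t i) :
    ∃ f : V → ℕ, (∀ v, f v ∈ L' v) ∧ ∀ u v, G.Adj u v → f u ≠ f v := by
  have key : ∀ n, ∃ f : V → ℕ, (∀ v, rank v < n → f v ∈ L' v ∧ cls (f v) = cell v t) ∧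
      ∀ u v, G.Adj u v → rank u < n → rank v < n → f u ≠ f v := by
    intro n
    induction n with
    | zero => exact ⟨fun _ => 0, fun v h => by omega, fun u v _ h => by omega⟩
    | succ n ih =>
      obtain ⟨f, h1, h2⟩ := ih
      have h3 : ∀ v, ∃ x ∈ (L' v).filter fun x => cls x = cell v t, x ∉ image f
          (univ.filter fun u => G.Adj u v ∧ rank u < rank v ∧ cell u t = cell v t) := by
        intro v
        apply exists_mem_notMem_of_card_lt_card
        rw [h]
        exact lt_of_le_of_lt card_image_le (hG.h2 v t)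
      choose g hg1 hg2 using h3
      have h4 : ∀ u v, G.Adj u v → rank u < n → rank v = n → f u ≠ g v := by
        intro u v huv hu hv e
        apply hg2 v
        refine mem_image.2 ⟨u, mem_filter.2 ⟨mem_univ _, huv, by omega, ?_⟩, e⟩
        rw [← (h1 u hu).2, e, (mem_filter.1 (hg1 v)).2]
      refine ⟨fun v => if rank v < n then f v else g v, fun v _ => ?_, fun u v huv hu hv => ?_⟩
      · beta_reduce
        split_ifs with h5
        · exact h1 v h5
        · exact mem_filter.1 (hg1 v)
      · have h5 := hG.h1 u v huv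
        beta_reduce
        split_ifs with h6 h7 h7
        · exact h2 u v huv h6 h7
        · exact h4 u v huv h6 (by omega)
        · exact (h4 v u huv.symm h7 (by omega)).symm
        · omega
  obtain ⟨f, h1, h2⟩ := key (univ.sup rank + 1)
  have h3 : ∀ v, rank v < univ.sup rank + 1 := fun v => Nat.lt_succ_of_le (le_sup (mem_univ v))
  exact ⟨f, fun v => (h1 v (h3 v)).1, fun u v huv => h2 u v huv (h3 u) (h3 v)⟩

end

def Step (μ ν : Multiset ℕ) : Prop :=
  ∃ a rest π, μ = a ::ₘ rest ∧ ν = π + rest ∧ π.sum = a ∧ ∀ x ∈ π, 0 < x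

def Le (p q : Multiset ℕ) : Prop :=
  ∃ r, Multiset.Rel (· ≤ ·) p r ∧ Relation.ReflTransGen Step r q

lemma group_le {ι κ : Type} [Fintype ι] [Fintype κ] (k : ι → ℕ) (b : κ → ℕ) (hb : ∀ s, 0 < b s)
    (g : κ → ι) (h : ∀ i, k i ≤ ∑ s with g s = i, b s) :
    Le (univ.val.map k) (univ.val.map b) := by
  refine ⟨univ.val.map fun i => ∑ s with g s = i, b s, ?_, ?_⟩
  · rw [Multiset.rel_map]
    exact Multiset.rel_refl_of_refl_on fun i _ => h i
  · have key : ∀ J : Finset ι, ∀ rest, Relation.ReflTransGen Step
        (J.val.map (fun i => ∑ s with g s = i, b s) + rest)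
        ((univ.filter fun s => g s ∈ J).val.map b + rest) := by
      intro J
      induction J using Finset.induction_on with
      | empty => intro rest; simp; exact Relation.ReflTransGen.refl
      | insert i J hi ih =>
        intro rest
        have e : (univ.filter fun s => g s ∈ insert i J).val =
            (univ.filter fun s => g s ∈ J).val + (univ.filter fun s => g s = i).val := by
          rw [← disjUnion_val _ _ (by
            rw [disjoint_filter]; rintro s _ h1 rfl; exact hi h1)]
          congr 1
          ext s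
          simp [or_comm]
        rw [e, Multiset.map_add, add_assoc]
        refine Relation.ReflTransGen.head ?_ (ih _)
        refine ⟨_, J.val.map (fun i => ∑ s with g s = i, b s) + rest,
          (univ.filter fun s => g s = i).val.map b, ?_, add_left_comm _ _ _, rfl, ?_⟩
        · rw [insert_val_of_notMem hi, Multiset.map_cons, Multiset.cons_add]
          rfl
        · intro x hx
          obtain ⟨s, -, rfl⟩ := Multiset.mem_map.1 hx
          exact hb s
    simpa using key univ 0

lemma le_of_sub (l1 l2 : List ℕ) (h1 : l1 ≠ []) (h2 : ∀ x ∈ l2, 0 < x)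
    (h : List.SublistForall₂ (· ≤ ·) l1 l2) : Le l1 l2 := by
  obtain ⟨l, h3, h4⟩ := List.sublistForall₂_iff.1 h
  obtain ⟨e, he⟩ := Multiset.le_iff_exists_add.1 (Multiset.coe_le.2 h4.subperm)
  cases h3 with
  | nil => exact absurd rfl h1
  | @cons a a' l1' l' h5 h6 =>
    refine ⟨(a' + e.sum) ::ₘ l', ?_, Relation.ReflTransGen.single ⟨_, _, a' ::ₘ e, rfl, ?_, by simp, ?_⟩⟩
    · rw [← Multiset.cons_coe]
      refine Multiset.Rel.cons (le_trans h5 (Nat.le_add_right _ _)) ?_
      clear h h1 h4 he
      induction h6 with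
      | nil => simp
      | cons h7 _ ih => exact Multiset.Rel.cons h7 ih
    · rw [he, ← Multiset.cons_coe, Multiset.cons_add, Multiset.cons_add, add_comm]
    · intro x hx
      apply h2
      rw [← Multiset.mem_coe, he, ← Multiset.cons_coe, Multiset.cons_add]
      rcases Multiset.mem_cons.1 hx with rfl | hx
      · simp
      · simp [hx]

lemma anti_finite (S : Set (Multiset ℕ)) (h1 : ∀ p ∈ S, p ≠ 0 ∧ ∀ a ∈ p, 0 < a)
    (h2 : ∀ p ∈ S, ∀ q ∈ S, p ≠ q → ¬ Le p q) : S.Finite := by
  by_contra hS
  let f := Set.Infinite.natEmbedding S hS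
  have hp := (Set.isPWO_of_wellQuasiOrderedLE (Set.univ : Set ℕ)).partiallyWellOrderedOn_sublistForall₂
    (· ≤ ·)
  obtain ⟨m, n, hmn, h⟩ := hp.exists_lt (f := fun n => (f n).1.toList) (fun n x _ => trivial)
  have h3 := le_of_sub _ _ (by simpa using (h1 _ (f m).2).1)
    (fun x hx => (h1 _ (f n).2).2 x (by simpa using hx)) h
  simp only [Multiset.coe_toList] at h3
  exact h2 _ (f m).2 _ (f n).2 (fun e => hmn.ne (f.injective (Subtype.ext e))) h3

end Pool.Agent.H.MP_6532c6_co
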